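import Pool.Agent.COPG.Level

set_option autoImplicit false

/-!
# Counting: `|C| < 4 k`, `|C| + 5 < 5 k` and `|C| + B < t k` suffice
-/

namespace Pool.Agent.COPG

open Finset

variable {V : Type} {G : SimpleGraph V}

theorem CW_empty (k : ℕ) : CW G ((∅ : Finset V) : Set V) k := by
  intro c r hr
  simp at hr

/-- Three vertices: one cop. -/
theorem CW_three (hG : G.Connected) {C : Finset V} (hC : Conn G C) (h : C.card ≤ 3) (k : ℕ) :
    CW G (C : Set V) (k + 1) := by
  classical
  rcases C.eq_empty_or_nonempty with rfl | ⟨r, hr⟩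
  · exact CW_empty _
  rcases Nat.lt_trichotomy C.card 2 with h1 | h1 | h1
  · -- one vertex
    have h2 : C.card = 1 := by
      have := card_pos.mpr ⟨r, hr⟩
      omega
    obtain ⟨a, ha⟩ := card_eq_one.mp h2
    refine CW.stand hG a fun x hx hxa _ => ?_
    rw [ha] at hx
    simp at hx
    exact absurd hx hxa
  · refine remove hG hr hC 0 k ?_ ?_
    · simp [bd, h1]
    · intro C' _ hne h3
      have := hne.card_pos
      omega
  · refine remove hG hr hC 1 k ?_ ?_
    · have : ∑ i ∈ range (1 + 1), bd 1 i = 2 := by decide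
      omega
    · intro C' _ hne h3
      have := hne.card_pos
      omega

theorem CW_four (hG : G.Connected) (k : ℕ) : ∀ C : Finset V, Conn G C → C.card < 4 * k →
    CW G (C : Set V) k := by
  induction k with
  | zero => intro C _ h; omega
  | succ k ih =>
    intro C hC h
    by_cases h3 : C.card ≤ 3
    · exact CW_three hG hC h3 k
    obtain ⟨r, hr⟩ : C.Nonempty := card_pos.mp (by omega)
    by_cases h5 : C.card ≤ 5
    · obtain ⟨j, rfl⟩ : ∃ j, k = j + 1 := ⟨k - 1, by omega⟩
      refine remove hG hr hC 1 (j + 1) ?_ ?_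
      · have : ∑ i ∈ range (1 + 1), bd 1 i = 2 := by decide
        omega
      · intro C' hC' _ h4
        exact CW_three hG hC' (by omega) j
    · refine remove hG hr hC 2 k ?_ ?_
      · have : ∑ i ∈ range (2 + 1), bd 2 i = 5 := by decide
        omega
      · intro C' hC' _ h4
        exact ih C' hC' (by omega)

theorem CW_five (hG : G.Connected) (k : ℕ) : ∀ C : Finset V, Conn G C → C.card + 5 < 5 * k →
    CW G (C : Set V) k := by
  induction k with
  | zero => intro C _ h; omega
  | succ k ih =>
    intro C hC h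
    by_cases h3 : C.card ≤ 22
    · exact CW_four hG _ C hC (by omega)
    obtain ⟨r, hr⟩ : C.Nonempty := card_pos.mp (by omega)
    refine remove hG hr hC 3 k ?_ ?_
    · have : ∑ i ∈ range (3 + 1), bd 3 i = 22 := by decide
      omega
    · intro C' hC' _ h4
      exact ih C' hC' (by omega)

theorem CW_gen (hG : G.Connected) (d M : ℕ) (hM : ∑ i ∈ range (d + 1), bd d i ≤ M) (k : ℕ) :
    ∀ C : Finset V, Conn G C → C.card + (d + 2) * M < (d + 2) * k → CW G (C : Set V) k := by
  induction k with
  | zero => intro C _ h; omega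
  | succ k ih =>
    intro C hC h
    have hMk : M < k + 1 := by
      by_contra h0
      have : (d + 2) * (k + 1) ≤ (d + 2) * M := Nat.mul_le_mul_left _ (by omega)
      omega
    by_cases h3 : C.card ≤ M
    · exact CW_four hG _ C hC (by omega)
    obtain ⟨r, hr⟩ : C.Nonempty := card_pos.mp (by omega)
    refine remove hG hr hC d k (by omega) ?_
    intro C' hC' _ h4
    refine ih C' hC' ?_
    rw [Nat.mul_succ] at h
    omega

theorem conn_univ [Fintype V] (hG : G.Connected) : Conn G (univ : Finset V) := by
  intro x _ y _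
  have hT : T G ((univ : Finset V) : Set V) = G := by
    ext a b
    simp [T]
  rw [hT]
  exact hG.preconnected x y

theorem CW.copWin' [Fintype V] (hG : G.Connected) {k : ℕ}
    (h : CW G ((univ : Finset V) : Set V) k) : CopWin G k := by
  have := hG.nonempty
  rw [coe_univ] at h
  exact h.copWin

theorem copWin_four [Fintype V] (hG : G.Connected) (k : ℕ) (h : Nat.card V < 4 * k) :
    CopWin G k := by
  refine CW.copWin' hG (CW_four hG k _ (conn_univ hG) ?_)
  rwa [card_univ, ← Nat.card_eq_fintype_card]

theorem copWin_five [Fintype V] (hG : G.Connected) (k : ℕ) (h : Nat.card V + 5 < 5 * k) :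
    CopWin G k := by
  refine CW.copWin' hG (CW_five hG k _ (conn_univ hG) ?_)
  rwa [card_univ, ← Nat.card_eq_fintype_card]

theorem copWin_gen (K : ℕ) : ∃ B : ℕ, ∀ (V : Type) [Fintype V] (G : SimpleGraph V), G.Connected →
    ∀ k : ℕ, Nat.card V + B < K * k → CopWin G k := by
  by_cases hK : K < 4
  · refine ⟨0, fun V _ G hG k h => copWin_four hG k ?_⟩
    have : K * k ≤ 4 * k := Nat.mul_le_mul_right _ (by omega)
    omega
  · obtain ⟨d, rfl⟩ : ∃ d, K = d + 2 := ⟨K - 2, by omega⟩
    refine ⟨(d + 2) * ∑ i ∈ range (d + 1), bd d i, fun V _ G hG k h => ?_⟩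
    refine CW.copWin' hG (CW_gen hG d _ le_rfl k _ (conn_univ hG) ?_)
    rwa [card_univ, ← Nat.card_eq_fintype_card]

end Pool.Agent.COPG
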