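import Mathlib

set_option autoImplicit false

/-!
# Cops and robbers: one cop guards a vertex or a geodesic
-/

namespace Pool.Agent.COPG

/-- The cops at `c` win against the robber at `r`, the robber to move: a cop is on `r`, or for
every move of the robber to `r'` (a neighbour of `r` or `r` itself) the cops have an answer `f r'`
(every cop moves to a neighbour or stays) after which they win. -/
inductive Win {V : Type} (G : SimpleGraph V) {k : ℕ} : (Fin k → V) → V → Prop
  | caught (c : Fin k → V) (r : V) (i : Fin k) (h : c i = r) : Win G c r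
  | step (c : Fin k → V) (r : V) (f : V → Fin k → V)
      (hf : ∀ r', r' = r ∨ G.Adj r r' → ∀ i, f r' i = c i ∨ G.Adj (c i) (f r' i))
      (hw : ∀ r', r' = r ∨ G.Adj r r' → Win G (f r') r') : Win G c r

/-- `k` cops have a winning strategy: they choose their vertices `c`, the robber chooses `r`, the
cops move to `c'`, and from then on, the robber to move, they win. -/
def CopWin {V : Type} (G : SimpleGraph V) (k : ℕ) : Prop :=
  ∃ c : Fin k → V, ∀ r : V, ∃ c' : Fin k → V,
    (∀ i, c' i = c i ∨ G.Adj (c i) (c' i)) ∧ Win G c' r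

/-- The same game in which the robber may not leave `C`. -/
inductive WinC {V : Type} (G : SimpleGraph V) (C : Set V) {k : ℕ} : (Fin k → V) → V → Prop
  | caught (c : Fin k → V) (r : V) (i : Fin k) (h : c i = r) : WinC G C c r
  | step (c : Fin k → V) (r : V) (f : V → Fin k → V)
      (hf : ∀ r' ∈ C, r' = r ∨ G.Adj r r' → ∀ i, f r' i = c i ∨ G.Adj (c i) (f r' i))
      (hw : ∀ r' ∈ C, r' = r ∨ G.Adj r r' → WinC G C (f r') r') : WinC G C c r

/-- `k` cops win on `C` from every position. -/
def CW {V : Type} (G : SimpleGraph V) (C : Set V) (k : ℕ) : Prop :=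
  ∀ (c : Fin k → V) (r : V), r ∈ C → WinC G C c r

variable {V : Type} {G : SimpleGraph V}

theorem WinC.mk {C : Set V} {k : ℕ} {c : Fin k → V} {r : V}
    (h : ∀ r' ∈ C, r' = r ∨ G.Adj r r' → ∃ c' : Fin k → V,
      (∀ i, c' i = c i ∨ G.Adj (c i) (c' i)) ∧ WinC G C c' r') : WinC G C c r := by
  classical
  refine WinC.step c r (fun r' => if h' : r' ∈ C ∧ (r' = r ∨ G.Adj r r') then
    (h r' h'.1 h'.2).choose else c) ?_ ?_
  · intro r' h1 h2
    rw [dif_pos ⟨h1, h2⟩]
    exact (h r' h1 h2).choose_spec.1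
  · intro r' h1 h2
    rw [dif_pos ⟨h1, h2⟩]
    exact (h r' h1 h2).choose_spec.2

theorem WinC.toWin {k : ℕ} {c : Fin k → V} {r : V} (h : WinC G Set.univ c r) : Win G c r := by
  induction h with
  | caught c r i h => exact Win.caught c r i h
  | step c r f hf hw ih =>
    exact Win.step c r f (fun r' h' => hf r' (Set.mem_univ _) h')
      (fun r' h' => ih r' (Set.mem_univ _) h')

theorem CW.copWin [Nonempty V] {k : ℕ} (h : CW G Set.univ k) : CopWin G k := by
  obtain ⟨v⟩ := ‹Nonempty V›
  exact ⟨fun _ => v, fun r => ⟨fun _ => v, fun _ => Or.inl rfl, (h _ r (Set.mem_univ _)).toWin⟩⟩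

/-- Once the guard is on the shadow of the robber and the robber is in `C'`, the other cops play
the game on `C'`. -/
theorem WinC.guard {C C' : Set V} {f : V → V}
    (hf : ∀ r ∈ C', ∀ r' ∈ C', r' = r ∨ G.Adj r r' → f r' = f r ∨ G.Adj (f r) (f r'))
    (hexit : ∀ r ∈ C', ∀ r' ∈ C, r' = r ∨ G.Adj r r' → r' ∈ C' ∨ r' = f r ∨ G.Adj (f r) r')
    {k : ℕ} {c : Fin k → V} {r : V} (h : WinC G C' c r) (hr : r ∈ C') :
    WinC G C (Fin.cons (f r) c : Fin (k + 1) → V) r := by
  induction h with
  | caught c r i h => exact WinC.caught _ _ i.succ (by simpa using h)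
  | step c r g hg hw ih =>
    refine WinC.mk fun r' hr' hadj => ?_
    by_cases h1 : r' ∈ C'
    · refine ⟨Fin.cons (f r') (g r'), fun i => ?_, ih r' h1 hadj h1⟩
      refine Fin.cases ?_ (fun i => ?_) i
      · simpa using hf r hr r' h1 hadj
      · simpa using hg r' h1 hadj i
    · have h2 : r' = f r ∨ G.Adj (f r) r' := (hexit r hr r' hr' hadj).resolve_left h1
      refine ⟨Fin.cons r' c, fun i => ?_, WinC.caught _ _ 0 (by simp)⟩
      refine Fin.cases ?_ (fun i => ?_) i
      · simpa using h2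
      · simp

/-- The first cop walks to `v`, if all positions with this cop on `v` are won. -/
theorem walk_to {C : Set V} {k : ℕ} {v : V}
    (h : ∀ (c : Fin k → V) (r : V), r ∈ C → WinC G C (Fin.cons v c : Fin (k + 1) → V) r)
    {a : V} (w : G.Walk a v) (c : Fin k → V) (r : V) (hr : r ∈ C) :
    WinC G C (Fin.cons a c : Fin (k + 1) → V) r := by
  induction w generalizing r with
  | nil => exact h c r hr
  | @cons a b _ hab p ih =>
    refine WinC.mk fun r' hr' _ => ⟨Fin.cons b c, fun i => ?_, ih h r' hr'⟩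
    refine Fin.cases ?_ (fun i => ?_) i
    · right; simpa using hab
    · simp

theorem cons_tail {k : ℕ} (c : Fin (k + 1) → V) : (Fin.cons (c 0) (Fin.tail c) : Fin (k + 1) → V) = c :=
  Fin.cons_self_tail c

/-- A cop standing on `v`. -/
theorem CW.stand (hG : G.Connected) {C : Set V} {k : ℕ} (v : V)
    (h : ∀ r ∈ C, r ≠ v → ¬ G.Adj v r → ∃ C' : Set V, r ∈ C' ∧ C' ⊆ C ∧
      (∀ s ∈ C', ∀ s' ∈ C, G.Adj s s' → s' ∈ C' ∨ s' = v ∨ G.Adj v s') ∧ CW G C' k) :
    CW G C (k + 1) := by
  -- the positions with a robber outside the closed neighbourhood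
  have h1 : ∀ (c : Fin k → V) (r : V), r ∈ C → r ≠ v → ¬ G.Adj v r →
      WinC G C (Fin.cons v c : Fin (k + 1) → V) r := by
    intro c r hr hrv hadj
    obtain ⟨C', hrC', hsub, hexit, hcw⟩ := h r hr hrv hadj
    have := WinC.guard (G := G) (C := C) (C' := C') (f := fun _ => v)
      (fun _ _ _ _ _ => Or.inl rfl) (fun s hs s' hs' hss' => ?_) (hcw c r hrC') hrC'
    · exact this
    · rcases hss' with rfl | hss'
      · exact Or.inl hs
      · exact hexit s hs s' hs' hss'
  have h2 : ∀ (c : Fin k → V) (r : V), r ∈ C → WinC G C (Fin.cons v c : Fin (k + 1) → V) r := by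
    intro c r hr
    refine WinC.mk fun r' hr' _ => ?_
    by_cases h3 : r' = v ∨ G.Adj v r'
    · refine ⟨Fin.cons r' c, fun i => ?_, WinC.caught _ _ 0 (by simp)⟩
      refine Fin.cases ?_ (fun i => ?_) i
      · simpa using h3
      · simp
    · push Not at h3
      exact ⟨Fin.cons v c, fun i => Or.inl rfl, h1 c r' hr' h3.1 h3.2⟩
  intro c r hr
  rw [← cons_tail c]
  obtain ⟨w⟩ := hG.preconnected (c 0) v
  exact walk_to h2 w _ r hr

/-- A cop guarding a path `p 0, ..., p L` with the shadow `s`. -/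
theorem CW.path (hG : G.Connected) {C : Set V} {k : ℕ} (L : ℕ) (p : ℕ → V) (s : V → ℕ)
    (hp : ∀ i < L, G.Adj (p i) (p (i + 1))) (hsL : ∀ x ∈ C, s x ≤ L)
    (hs : ∀ x ∈ C, ∀ y ∈ C, G.Adj x y → s y ≤ s x + 1) (hsp : ∀ i ≤ L, s (p i) = i)
    (h : ∀ r ∈ C, (∀ i ≤ L, r ≠ p i) → ∃ C' : Set V, r ∈ C' ∧ C' ⊆ C ∧
      (∀ x ∈ C', ∀ y ∈ C, G.Adj x y → y ∈ C' ∨ ∃ i ≤ L, y = p i) ∧ CW G C' k) :
    CW G C (k + 1) := by
  -- consecutive vertices of the path
  have hadj : ∀ i ≤ L, ∀ j ≤ L, i ≤ j + 1 → j ≤ i + 1 → p j = p i ∨ G.Adj (p i) (p j) := by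
    intro i hi j hj h1 h2
    rcases Nat.lt_trichotomy i j with hlt | heq | hgt
    · have : j = i + 1 := by omega
      subst this
      exact Or.inr (hp i (by omega))
    · subst heq; exact Or.inl rfl
    · have : i = j + 1 := by omega
      subst this
      exact Or.inr (hp j (by omega)).symm
  have hstep : ∀ x ∈ C, ∀ y ∈ C, y = x ∨ G.Adj x y → s y ≤ s x + 1 ∧ s x ≤ s y + 1 := by
    intro x hx y hy hxy
    rcases hxy with rfl | hxy
    · exact ⟨by omega, by omega⟩
    · exact ⟨hs x hx y hy hxy, hs y hy x hx hxy.symm⟩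
  -- the guard is on the shadow
  have h1 : ∀ (c : Fin k → V) (r : V), r ∈ C →
      WinC G C (Fin.cons (p (s r)) c : Fin (k + 1) → V) r := by
    intro c r hr
    by_cases hrp : ∃ i ≤ L, r = p i
    · obtain ⟨i, hi, rfl⟩ := hrp
      refine WinC.caught _ _ 0 ?_
      rw [Fin.cons_zero, hsp i hi]
    · push Not at hrp
      obtain ⟨C', hrC', hsub, hexit, hcw⟩ := h r hr hrp
      refine WinC.guard (G := G) (C := C) (C' := C') (f := fun x => p (s x))
        (fun x hx y hy hxy => ?_) (fun x hx y hy hxy => ?_) (hcw c r hrC') hrC'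
      · obtain ⟨h3, h4⟩ := hstep x (hsub hx) y (hsub hy) hxy
        exact hadj _ (hsL x (hsub hx)) _ (hsL y (hsub hy)) h4 h3
      · rcases hxy with rfl | hxy
        · exact Or.inl hx
        · rcases hexit x hx y hy hxy with h3 | ⟨i, hi, rfl⟩
          · exact Or.inl h3
          · right
            obtain ⟨h3, h4⟩ := hstep x (hsub hx) _ hy (Or.inr hxy)
            rw [hsp i hi] at h3 h4
            exact hadj _ (hsL x (hsub hx)) i hi h4 h3
  -- the guard is behind the shadow
  have h2 : ∀ (m a : ℕ), L - a = m → ∀ (c : Fin k → V) (r : V), r ∈ C → a ≤ s r →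
      WinC G C (Fin.cons (p a) c : Fin (k + 1) → V) r := by
    intro m
    induction m with
    | zero =>
      intro a ha c r hr har
      have := hsL r hr
      have : s r = a := by omega
      rw [← this]
      exact h1 c r hr
    | succ m ih =>
      intro a ha c r hr har
      by_cases heq : s r = a
      · rw [← heq]; exact h1 c r hr
      refine WinC.mk fun r' hr' hadj' => ?_
      obtain ⟨h3, h4⟩ := hstep r hr r' hr' hadj'
      by_cases h5 : s r' = a
      · refine ⟨Fin.cons (p a) c, fun i => Or.inl rfl, ?_⟩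
        rw [← h5]
        exact h1 c r' hr'
      · refine ⟨Fin.cons (p (a + 1)) c, fun i => ?_, ih (a + 1) (by omega) c r' hr' (by omega)⟩
        refine Fin.cases ?_ (fun i => ?_) i
        · right; simpa using hp a (by omega)
        · simp
  intro c r hr
  rw [← cons_tail c]
  obtain ⟨w⟩ := hG.preconnected (c 0) (p 0)
  exact walk_to (fun c r hr => h2 _ 0 rfl c r hr (Nat.zero_le _)) w _ r hr

end Pool.Agent.COPG
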