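import Pool.Agent.COPG.Game

set_option autoImplicit false

/-!
# Levels of a connected set of vertices
-/

namespace Pool.Agent.COPG

open Finset

/-- The graph `G` inside `C`. -/
def T {V : Type} (G : SimpleGraph V) (C : Set V) : SimpleGraph V where
  Adj a b := a ∈ C ∧ b ∈ C ∧ G.Adj a b
  symm := ⟨fun _ _ h => ⟨h.2.1, h.1, h.2.2.symm⟩⟩
  loopless := ⟨fun _ h => G.loopless.irrefl _ h.2.2⟩

/-- `C` is connected inside. -/
def Conn {V : Type} (G : SimpleGraph V) (C : Finset V) : Prop :=
  ∀ x ∈ C, ∀ y ∈ C, (T G (C : Set V)).Reachable x y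

variable {V : Type} {G : SimpleGraph V}

theorem exists_comp (D : Finset V) {r : V} (hr : r ∈ D) : ∃ C' : Finset V, r ∈ C' ∧ C' ⊆ D ∧
    Conn G C' ∧ ∀ x ∈ C', ∀ y ∈ D, G.Adj x y → y ∈ C' := by
  classical
  refine ⟨D.filter (fun x => (T G (D : Set V)).Reachable r x), ?_, filter_subset _ _, ?_, ?_⟩
  · rw [mem_filter]; exact ⟨hr, SimpleGraph.Reachable.refl _⟩
  · set C' := D.filter (fun x => (T G (D : Set V)).Reachable r x) with hC'
    have key : ∀ x, (T G (D : Set V)).Reachable r x → (T G (C' : Set V)).Reachable r x := by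
      intro x hx
      rw [SimpleGraph.reachable_iff_reflTransGen] at hx
      induction hx with
      | refl => exact SimpleGraph.Reachable.refl _
      | @tail b c hb hbc ih =>
        have hb' : (T G (D : Set V)).Reachable r b := by
          rw [SimpleGraph.reachable_iff_reflTransGen]; exact hb
        have hbD : b ∈ D := by simpa using hbc.1
        have hcD : c ∈ D := by simpa using hbc.2.1
        have h1 : b ∈ C' := by rw [hC', mem_filter]; exact ⟨hbD, hb'⟩
        have h2 : c ∈ C' := by
          rw [hC', mem_filter]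
          exact ⟨hcD, hb'.trans (SimpleGraph.Adj.reachable hbc)⟩
        refine ih.trans (SimpleGraph.Adj.reachable ?_)
        exact ⟨by simpa using h1, by simpa using h2, hbc.2.2⟩
    intro x hx y hy
    rw [hC', mem_filter] at hx hy
    exact (key x hx.2).symm.trans (key y hy.2)
  · intro x hx y hy hxy
    rw [mem_filter] at hx ⊢
    refine ⟨hy, hx.2.trans (SimpleGraph.Adj.reachable ?_)⟩
    exact ⟨by simpa using hx.1, by simpa using hy, hxy⟩

theorem dist_step (H : SimpleGraph V) {r a b : V} (h : H.Reachable r a) (hab : H.Adj a b) :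
    H.dist r b ≤ H.dist r a + 1 := by
  obtain ⟨w, hw⟩ := h.exists_walk_length_eq_dist
  have := SimpleGraph.dist_le (w.concat hab)
  rw [SimpleGraph.Walk.length_concat, hw] at this
  exact this

theorem parent (H : SimpleGraph V) {r x : V} {i : ℕ} (h : H.Reachable r x)
    (hd : H.dist r x = i + 1) : ∃ y, H.Adj y x ∧ H.Reachable r y ∧ H.dist r y = i := by
  obtain ⟨w, hw⟩ := h.symm.exists_walk_length_eq_dist
  rw [SimpleGraph.dist_comm, hd] at hw
  cases w with
  | nil => simp at hw
  | @cons _ y _ hxy w' =>
    refine ⟨y, hxy.symm, w'.reachable.symm, ?_⟩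
    have h1 : H.dist r y ≤ i := by
      have := SimpleGraph.dist_le w'
      rw [SimpleGraph.dist_comm] at this
      simp at hw
      omega
    have h2 := dist_step H w'.reachable.symm hxy.symm
    omega

theorem chain (H : SimpleGraph V) {r : V} (L : ℕ) : ∀ x : V, H.Reachable r x → H.dist r x = L →
    ∃ p : ℕ → V, p L = x ∧ (∀ i < L, H.Adj (p i) (p (i + 1))) ∧ (∀ i ≤ L, H.dist r (p i) = i) ∧
      ∀ i ≤ L, H.Reachable r (p i) := by
  induction L with
  | zero =>
    intro x hx hd
    exact ⟨fun _ => x, rfl, fun i hi => absurd hi (Nat.not_lt_zero _),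
      fun i hi => by rw [Nat.le_zero.mp hi]; exact hd, fun i hi => hx⟩
  | succ L ih =>
    intro x hx hd
    obtain ⟨y, hyx, hry, hdy⟩ := parent H hx hd
    obtain ⟨p, hpL, hadj, hdist, hreach⟩ := ih y hry hdy
    refine ⟨fun i => if i ≤ L then p i else x, ?_, ?_, ?_, ?_⟩
    · simp
    · intro i hi
      by_cases h1 : i + 1 ≤ L
      · simp only [show i ≤ L by omega, h1, if_true]
        exact hadj i (by omega)
      · have : i = L := by omega
        subst this
        simp only [le_refl, if_true, h1, if_false, hpL]
        exact hyx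
    · intro i hi
      by_cases h1 : i ≤ L
      · simp only [h1, if_true]; exact hdist i h1
      · simp only [h1, if_false]
        have : i = L + 1 := by omega
        rw [this]; exact hd
    · intro i hi
      by_cases h1 : i ≤ L
      · simp only [h1, if_true]; exact hreach i h1
      · simp only [h1, if_false]; exact hx

/-- The bounds for the levels. -/
def bd (d : ℕ) : ℕ → ℕ
  | 0 => 1
  | 1 => d
  | (i + 2) => bd d (i + 1) * (d - 1)

open Classical in
theorem level_card {C : Finset V} {r : V} (hr : r ∈ C) (hC : Conn G C) {d : ℕ}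
    (hd : ∀ y ∈ C, (C.filter (fun x => G.Adj y x)).card ≤ d) (i : ℕ) :
    (C.filter (fun x => (T G (C : Set V)).dist r x = i)).card ≤ bd d i := by
  set H := T G (C : Set V) with hH
  induction i using Nat.twoStepInduction with
  | zero =>
    have : C.filter (fun x => H.dist r x = 0) ⊆ {r} := by
      intro x hx
      rw [mem_filter] at hx
      rw [mem_singleton]
      exact ((hC r hr x hx.1).dist_eq_zero_iff.mp hx.2).symm
    calc _ ≤ ({r} : Finset V).card := card_le_card this
      _ = 1 := card_singleton _
  | one =>
    have : C.filter (fun x => H.dist r x = 1) ⊆ C.filter (fun x => G.Adj r x) := by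
      intro x hx
      rw [mem_filter] at hx ⊢
      exact ⟨hx.1, (SimpleGraph.dist_eq_one_iff_adj.mp hx.2).2.2⟩
    exact (card_le_card this).trans (hd r hr)
  | more i _ ih =>
    have hsub : C.filter (fun x => H.dist r x = i + 2) ⊆
        (C.filter (fun x => H.dist r x = i + 1)).biUnion
          (fun y => (C.filter (fun x => G.Adj y x)).filter (fun x => H.dist r x = i + 2)) := by
      intro x hx
      rw [mem_filter] at hx
      obtain ⟨y, hyx, hry, hdy⟩ := parent H (hC r hr x hx.1) hx.2
      rw [mem_biUnion]
      refine ⟨y, ?_, ?_⟩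
      · rw [mem_filter]
        exact ⟨by simpa using hyx.1, hdy⟩
      · rw [mem_filter, mem_filter]
        exact ⟨⟨hx.1, hyx.2.2⟩, hx.2⟩
    refine (card_le_card hsub).trans ?_
    refine (card_biUnion_le_card_mul _ _ (d - 1) ?_).trans (Nat.mul_le_mul_right _ ih)
    intro y hy
    rw [mem_filter] at hy
    obtain ⟨z, hzy, hrz, hdz⟩ := parent H (hC r hr y hy.1) hy.2
    have hzC : z ∈ C := by simpa using hzy.1
    have hss : (C.filter (fun x => G.Adj y x)).filter (fun x => H.dist r x = i + 2) ⊆
        (C.filter (fun x => G.Adj y x)).erase z := by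
      intro x hx
      rw [mem_filter] at hx
      rw [mem_erase]
      refine ⟨?_, hx.1⟩
      rintro rfl
      rw [hdz] at hx
      omega
    refine (card_le_card hss).trans ?_
    rw [card_erase_of_mem]
    · exact Nat.sub_le_sub_right (hd y hy.1) 1
    · rw [mem_filter]
      exact ⟨hzC, hzy.2.2.symm⟩

/-- Either `C` has a vertex with more than `d` neighbours in `C`, or a geodesic of length `D + 1`
from `r`, or it is small. -/
theorem dich {C : Finset V} {r : V} (hr : r ∈ C) (hC : Conn G C) (d D : ℕ) :
    (∃ y ∈ C, ∃ S : Finset V, S ⊆ C ∧ d + 1 ≤ S.card ∧ ∀ x ∈ S, G.Adj y x) ∨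
    (∃ p : ℕ → V, (∀ i ≤ D + 1, p i ∈ C) ∧ (∀ i < D + 1, G.Adj (p i) (p (i + 1))) ∧
      ∀ i ≤ D + 1, (T G (C : Set V)).dist r (p i) = i) ∨
    C.card ≤ ∑ i ∈ range (D + 1), bd d i := by
  classical
  by_cases h1 : ∃ y ∈ C, d + 1 ≤ (C.filter (fun x => G.Adj y x)).card
  · obtain ⟨y, hy, hy'⟩ := h1
    exact Or.inl ⟨y, hy, _, filter_subset _ _, hy', fun x hx => (mem_filter.mp hx).2⟩
  right
  push Not at h1
  have hd : ∀ y ∈ C, (C.filter (fun x => G.Adj y x)).card ≤ d := fun y hy =>
    Nat.lt_succ_iff.mp (h1 y hy)
  by_cases h2 : ∃ x ∈ C, D + 1 ≤ (T G (C : Set V)).dist r x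
  · left
    obtain ⟨x, hx, hxd⟩ := h2
    obtain ⟨p, hpL, hadj, hdist, hreach⟩ := chain (T G (C : Set V)) _ x (hC r hr x hx) rfl
    have hmem : ∀ i ≤ D + 1, p i ∈ C := by
      intro i hi
      by_cases h3 : i < (T G (C : Set V)).dist r x
      · simpa using (hadj i h3).1
      · have : i = (T G (C : Set V)).dist r x := by omega
        rw [this, hpL]; exact hx
    exact ⟨p, hmem, fun i hi => (hadj i (by omega)).2.2, fun i hi => hdist i (by omega)⟩
  · right
    push Not at h2
    have hsub : C ⊆ (range (D + 1)).biUnion
        (fun i => C.filter (fun x => (T G (C : Set V)).dist r x = i)) := by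
      intro x hx
      rw [mem_biUnion]
      exact ⟨_, mem_range.mpr (h2 x hx), mem_filter.mpr ⟨hx, rfl⟩⟩
    calc C.card ≤ _ := card_le_card hsub
      _ ≤ ∑ i ∈ range (D + 1), (C.filter (fun x => (T G (C : Set V)).dist r x = i)).card :=
        card_biUnion_le
      _ ≤ _ := sum_le_sum fun i _ => level_card hr hC hd i

/-- One cop removes `d + 2` vertices (a vertex with `d + 1` neighbours) or `D + 2` vertices (a
geodesic of length `D + 1`). -/
theorem remove (hG : G.Connected) {C : Finset V} {r : V} (hr : r ∈ C) (hC : Conn G C) (d k : ℕ)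
    (hsmall : ∑ i ∈ range (d + 1), bd d i < C.card)
    (ih : ∀ C' : Finset V, Conn G C' → C'.Nonempty → C'.card + (d + 2) ≤ C.card →
      CW G (C' : Set V) k) : CW G (C : Set V) (k + 1) := by
  classical
  rcases dich hr hC d d with ⟨y, hy, S, hSC, hScard, hS⟩ | ⟨p, hpC, hadj, hdist⟩ | h
  · refine CW.stand hG y fun x hx hxy hnadj => ?_
    set D := C.filter (fun z => z ≠ y ∧ ¬ G.Adj y z) with hD
    have hxD : x ∈ D := by rw [hD, mem_filter]; exact ⟨by simpa using hx, hxy, hnadj⟩
    obtain ⟨C', hxC', hsub, hconn, hexit⟩ := exists_comp (G := G) D hxD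
    have hDC : D ⊆ C := filter_subset _ _
    refine ⟨(C' : Set V), by simpa using hxC', ?_, ?_, ?_⟩
    · exact_mod_cast hsub.trans hDC
    · intro s hs s' hs' hss'
      by_cases h1 : s' ∈ D
      · left; simpa using hexit s (by simpa using hs) s' h1 hss'
      · right
        rw [hD, mem_filter] at h1
        push Not at h1
        by_cases h2 : s' = y
        · exact Or.inl h2
        · exact Or.inr (by
            by_contra h3
            exact h3 (by
              have := h1 (by simpa using hs') h2
              exact this))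
    · refine ih C' hconn ⟨x, hxC'⟩ ?_
      have h1 : insert y S ⊆ C \ D := by
        intro z hz
        rw [mem_insert] at hz
        rw [mem_sdiff, hD, mem_filter]
        rcases hz with rfl | hz
        · exact ⟨hy, fun h => h.2.1 rfl⟩
        · exact ⟨hSC hz, fun h => h.2.2 (hS z hz)⟩
      have h2 : y ∉ S := fun h => G.loopless.irrefl _ (hS y h)
      have h3 := card_le_card h1
      rw [card_insert_of_notMem h2, card_sdiff_of_subset hDC] at h3
      have h4 := card_le_card hsub
      have h5 := card_le_card hDC
      omega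
  · set D := C.filter (fun z => ∀ i ≤ d + 1, z ≠ p i) with hD
    have hDC : D ⊆ C := filter_subset _ _
    set H := T G (C : Set V) with hH
    refine CW.path hG (d + 1) p (fun x => min (H.dist r x) (d + 1)) hadj
      (fun x _ => min_le_right _ _) ?_ ?_ ?_
    · intro x hx y hy hxy
      have h1 := dist_step H (hC r hr x (by simpa using hx)) (a := x) (b := y) ⟨hx, hy, hxy⟩
      omega
    · intro i hi
      simp only [hdist i hi]
      omega
    · intro x hx hxp
      have hxD : x ∈ D := by rw [hD, mem_filter]; exact ⟨by simpa using hx, hxp⟩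
      obtain ⟨C', hxC', hsub, hconn, hexit⟩ := exists_comp (G := G) D hxD
      refine ⟨(C' : Set V), by simpa using hxC', by exact_mod_cast hsub.trans hDC, ?_, ?_⟩
      · intro s hs s' hs' hss'
        by_cases h1 : s' ∈ D
        · left; simpa using hexit s (by simpa using hs) s' h1 hss'
        · right
          rw [hD, mem_filter] at h1
          push Not at h1
          exact h1 (by simpa using hs')
      · refine ih C' hconn ⟨x, hxC'⟩ ?_
        have h1 : (range (d + 2)).image p ⊆ C \ D := by
          intro z hz
          rw [mem_image] at hz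
          obtain ⟨i, hi, rfl⟩ := hz
          rw [mem_range] at hi
          rw [mem_sdiff, hD, mem_filter]
          exact ⟨hpC i (by omega), fun h => h.2 i (by omega) rfl⟩
        have h2 : ((range (d + 2)).image p).card = d + 2 := by
          rw [card_image_of_injOn, card_range]
          intro i hi j hj hij
          simp only [coe_range, Set.mem_Iio] at hi hj
          have e1 := hdist i (by omega)
          have e2 := hdist j (by omega)
          rw [hij] at e1
          omega
        have h3 := card_le_card h1
        rw [h2, card_sdiff_of_subset hDC] at h3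
        have h4 := card_le_card hsub
        have h5 := card_le_card hDC
        omega
  · omega

end Pool.Agent.COPG
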