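import Pool.Agent.COPG.Count

set_option autoImplicit false

/-!
# Counting: `|C| + 38 < 6 k` suffices, and all bounds together
-/

namespace Pool.Agent.COPG

open Finset

variable {V : Type} {G : SimpleGraph V}

theorem CW_six (hG : G.Connected) (k : ℕ) : ∀ C : Finset V, Conn G C → C.card + 38 < 6 * k →
    CW G (C : Set V) k := by
  induction k with
  | zero => intro C _ h; omega
  | succ k ih =>
    intro C hC h
    by_cases h3 : C.card ≤ 161
    · exact CW_five hG _ C hC (by omega)
    obtain ⟨r, hr⟩ : C.Nonempty := card_pos.mp (by omega)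
    refine remove hG hr hC 4 k ?_ ?_
    · have : ∑ i ∈ range (4 + 1), bd 4 i = 161 := by decide
      omega
    · intro C' hC' _ h4
      exact ih C' hC' (by omega)

theorem copWin_six [Fintype V] (hG : G.Connected) (k : ℕ) (h : Nat.card V + 38 < 6 * k) :
    CopWin G k := by
  refine CW.copWin' hG (CW_six hG k _ (conn_univ hG) ?_)
  rwa [card_univ, ← Nat.card_eq_fintype_card]

/-- All bounds together. -/
theorem copWin_all : ∃ B : ℕ → ℕ, B 4 = 1 ∧ B 5 = 6 ∧ B 6 = 39 ∧
    ∀ (K : ℕ) (V : Type) [Fintype V] (G : SimpleGraph V), G.Connected →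
      ∀ k : ℕ, Nat.card V + B K ≤ K * k → CopWin G k := by
  choose B hB using copWin_gen
  refine ⟨fun K => if K = 4 then 1 else if K = 5 then 6 else if K = 6 then 39 else B K + 1,
    by simp, by simp, by simp, ?_⟩
  intro K V _ G hG k h
  by_cases h4 : K = 4
  · subst h4
    simp only [if_true] at h
    exact copWin_four hG k (by omega)
  by_cases h5 : K = 5
  · subst h5
    simp only [if_true, h4, if_false] at h
    exact copWin_five hG k (by omega)
  by_cases h6 : K = 6
  · subst h6
    simp only [if_true, h4, h5, if_false] at h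
    exact copWin_six hG k (by omega)
  · simp only [h4, h5, h6, if_false] at h
    exact hB K V G hG k (by omega)

end Pool.Agent.COPG
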